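import Mathlib

namespace Pool.Agent.Results.MP_053bca_co.OddNonabelian

universe u

/-- The rank of the chain with cells `(x, θ x)`: the number of distinct symbols `x * θ x`. -/
noncomputable def chainRank {Q : Type u} [Mul Q] (θ : Equiv.Perm Q) : ℕ :=
  (Set.range fun x => x * θ x).ncard

/-- The Cayley table of `Q` has a chain of rank `t`. -/
def Admissible (Q : Type u) [Mul Q] (t : ℕ) : Prop :=
  ∃ θ : Equiv.Perm Q, chainRank θ = t

/-- Some chain misses exactly one symbol. -/
def Near (G : Type u) [Mul G] : Prop :=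
  ∃ (θ : Equiv.Perm G) (s : G), (Set.range fun x => x * θ x) = {s}ᶜ

theorem sq_injective {G : Type u} [Group G] [Finite G] (hodd : Odd (Nat.card G)) {a b : G}
    (h : a * a = b * b) : a = b := by
  obtain ⟨k, hk⟩ := hodd
  have key : ∀ g : G, g = (g * g) ^ (k + 1) := by
    intro g
    have h1 : g ^ (2 * k + 1) = 1 := by rw [← hk]; exact pow_card_eq_one'
    calc g = g ^ (2 * k + 1) * g := by rw [h1, one_mul]
      _ = (g * g) ^ (k + 1) := by
        rw [← pow_two, ← pow_mul, ← pow_succ]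
        congr 1
  rw [key a, key b, h]

/-- Extension of a near-transversal from a subgroup. -/
theorem near_of_subgroup {G : Type u} [Group G] [Finite G] (hodd : Odd (Nat.card G))
    (H : Subgroup G) (h : Near H) : Near G := by
  classical
  obtain ⟨θ, s, hs⟩ := h
  refine ⟨Equiv.Perm.ofSubtype θ, s, ?_⟩
  have hsq : Function.Surjective (fun g : G => g * g) :=
    Finite.surjective_of_injective fun a b hab => sq_injective hodd hab
  ext g
  simp only [Set.mem_range, Set.mem_compl_iff, Set.mem_singleton_iff]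
  constructor
  · rintro ⟨x, rfl⟩ hx
    by_cases hxH : x ∈ H
    · rw [Equiv.Perm.ofSubtype_apply_of_mem (p := fun x => x ∈ H) θ hxH] at hx
      have h1 : (⟨x, hxH⟩ : H) * θ ⟨x, hxH⟩ ∈ ({s}ᶜ : Set H) := by
        rw [← hs]; exact ⟨_, rfl⟩
      exact h1 (Subtype.ext hx)
    · rw [Equiv.Perm.ofSubtype_apply_of_not_mem (p := fun x => x ∈ H) θ hxH] at hx
      obtain ⟨k, hk⟩ := hodd
      apply hxH
      have h1 : x ^ (2 * k + 1) = 1 := by rw [← hk]; exact pow_card_eq_one'
      have h2 : x = (x * x) ^ (k + 1) := by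
        calc x = x ^ (2 * k + 1) * x := by rw [h1, one_mul]
          _ = (x * x) ^ (k + 1) := by
            rw [← pow_two, ← pow_mul, ← pow_succ]
            congr 1
      rw [h2, hx]
      exact H.pow_mem s.2 _
  · intro hg
    by_cases hgH : g ∈ H
    · have h1 : (⟨g, hgH⟩ : H) ∈ ({s}ᶜ : Set H) := by
        intro h2
        exact hg (congrArg Subtype.val h2)
      rw [← hs] at h1
      obtain ⟨x, hx⟩ := h1
      refine ⟨x, ?_⟩
      rw [Equiv.Perm.ofSubtype_apply_of_mem (p := fun x => x ∈ H) θ x.2]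
      exact congrArg Subtype.val hx
    · obtain ⟨x, hx⟩ := hsq g
      refine ⟨x, ?_⟩
      have hxH : x ∉ H := by
        intro h1
        apply hgH
        rw [← hx]
        exact H.mul_mem h1 h1
      rw [Equiv.Perm.ofSubtype_apply_of_not_mem (p := fun x => x ∈ H) θ hxH]
      exact hx

/-- The trade lemma. -/
theorem near_of_trade {G : Type u} [Group G] (θ₀ φ₀ ψ κ : Equiv.Perm G) (g₀ : G)
    (h : ∀ g, g ≠ g₀ → g * θ₀ (κ g) = φ₀ (ψ g)) (h₀ : g₀ * θ₀ (κ g₀) ≠ φ₀ (ψ g₀)) : Near G := by
  refine ⟨κ.trans θ₀, φ₀ (ψ g₀), ?_⟩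
  ext s
  simp only [Set.mem_range, Set.mem_compl_iff, Set.mem_singleton_iff, Equiv.trans_apply]
  constructor
  · rintro ⟨x, rfl⟩ hx
    by_cases hx0 : x = g₀
    · subst hx0
      exact h₀ hx
    · rw [h x hx0] at hx
      exact hx0 (ψ.injective (φ₀.injective hx))
  · intro hs
    refine ⟨ψ.symm (φ₀.symm s), ?_⟩
    rw [h]
    · simp
    · intro h1
      apply hs
      rw [← h1]
      simp

section Construction

variable {G : Type u} [Group G]

/-- The rows of the trade. -/
def X (t n : G) (k : ℕ) : G := if k = 1 then n * t else t ^ k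

/-- The columns of the trade. -/
def Y (t n : G) : ℕ → G
  | 0 => 1
  | 1 => t
  | k + 2 => (X t n k)⁻¹ * X t n (k + 1) * Y t n (k + 1)

theorem X_mul_Y (t n : G) (k : ℕ) : X t n k * Y t n (k + 2) = X t n (k + 1) * Y t n (k + 1) := by
  rw [Y]
  group

theorem X_of_ne (t n : G) {k : ℕ} (hk : k ≠ 1) : X t n k = t ^ k := if_neg hk

theorem Y_add_three (t n : G) (k : ℕ) : Y t n (k + 3) = t ^ k * Y t n 3 := by
  induction k with
  | zero => simp
  | succ k ih =>
    rw [show k + 1 + 3 = (k + 2) + 2 from rfl, Y, X_of_ne t n (by omega : k + 2 ≠ 1),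
      X_of_ne t n (by omega : k + 2 + 1 ≠ 1), show k + 2 + 1 = k + 3 from rfl, ih,
      pow_succ t (k + 2), inv_mul_cancel_left, pow_succ', mul_assoc]

theorem Y_three (t n : G) : Y t n 3 = (n * t)⁻¹ * t ^ 2 * (n * t * t) := by
  simp [Y, X]

theorem val_succ {m : ℕ} [NeZero m] (hm : 3 ≤ m) (i : ZMod m) (hi : i ≠ -1) :
    (i + 1).val = i.val + 1 := by
  have h1 : (1 : ZMod m).val = 1 := ZMod.val_one'' (by omega)
  have h2 : i.val < m := ZMod.val_lt i
  have h3 : i.val + 1 ≠ m := by
    intro h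
    apply hi
    have h4 : ((i.val + 1 : ℕ) : ZMod m) = 0 := by rw [h]; exact ZMod.natCast_self m
    push_cast at h4
    rw [ZMod.natCast_zmod_val] at h4
    exact eq_neg_of_add_eq_zero_left h4
  rw [ZMod.val_add_of_lt, h1]
  rw [h1]
  omega

theorem val_neg_one {m : ℕ} (hm : 3 ≤ m) : (-1 : ZMod m).val = m - 1 := by
  obtain ⟨k, rfl⟩ : ∃ k, m = k + 1 := ⟨m - 1, by omega⟩
  rw [Nat.add_sub_cancel]
  exact ZMod.val_neg_one k

variable {m : ℕ} [NeZero m] (φ : G →* Multiplicative (ZMod m)) {t n : G}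
  (ht : (φ t).toAdd = 1) (hn : (φ n).toAdd = 0)

omit [NeZero m] in
include ht hn in
theorem idx_X (k : ℕ) : (φ (X t n k)).toAdd = (k : ZMod m) := by
  unfold X
  split_ifs with h
  · subst h
    rw [map_mul, toAdd_mul, ht, hn]
    simp
  · rw [map_pow, toAdd_pow, ht]
    simp

omit [NeZero m] in
include ht hn in
theorem idx_Y (k : ℕ) : (φ (Y t n k)).toAdd = (k : ZMod m) ∧
    (φ (Y t n (k + 1))).toAdd = ((k + 1 : ℕ) : ZMod m) := by
  induction k with
  | zero =>
    constructor
    · simp [Y]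
    · simp [Y, ht]
  | succ k ih =>
    refine ⟨ih.2, ?_⟩
    rw [Y, MonoidHom.map_mul, MonoidHom.map_mul, MonoidHom.map_inv, toAdd_mul, toAdd_mul,
      toAdd_inv, idx_X φ ht hn, idx_X φ ht hn, ih.2]
    push_cast
    ring

include ht hn in
theorem near_of_hom [Finite G] (hodd : Odd (Nat.card G)) (hm : 3 ≤ m) (hmodd : Odd m)
    (hnt : n * t ^ 2 ≠ t ^ 2 * n) : Near G := by
  classical
  set idx : G → ZMod m := fun g => (φ g).toAdd with hidx
  set x : ZMod m → G := fun i => X t n i.val with hx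
  set y : ZMod m → G := fun i => Y t n (i.val + 1) with hy
  have idx_mul : ∀ a b, idx (a * b) = idx a + idx b := by
    intro a b; simp [hidx]
  have idx_inv : ∀ a, idx a⁻¹ = - idx a := by
    intro a; simp [hidx]
  have idx_x : ∀ i, idx (x i) = i := by
    intro i
    change (φ (X t n i.val)).toAdd = i
    rw [idx_X φ ht hn, ZMod.natCast_zmod_val]
  have idx_y : ∀ i, idx (y i) = i + 1 := by
    intro i
    change (φ (Y t n (i.val + 1))).toAdd = i + 1
    rw [(idx_Y φ ht hn i.val).2]
    push_cast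
    rw [ZMod.natCast_zmod_val]
  have x_inj : Function.Injective x := by
    intro i j hij
    rw [← idx_x i, ← idx_x j, hij]
  set θf : G → G := fun g => (x (idx g))⁻¹ * g * y (idx g - 1) with hθf
  have idx_θ : ∀ g, idx (θf g) = idx g := by
    intro g
    simp only [hθf, idx_mul, idx_inv, idx_x, idx_y]
    ring
  have θ_inj : Function.Injective θf := by
    intro a b hab
    have h1 : idx a = idx b := by rw [← idx_θ a, ← idx_θ b, hab]
    simp only [hθf, h1] at hab
    exact mul_left_cancel (mul_right_cancel hab)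
  have φ_inj : Function.Injective fun g => g * θf g := by
    intro a b hab
    have h1 : idx a + idx a = idx b + idx b := by
      have := congrArg idx hab
      simpa only [idx_mul, idx_θ] using this
    have h2 : idx a = idx b := by
      obtain ⟨k, hk⟩ := hmodd
      have h3 : ((2 * k + 1 : ℕ) : ZMod m) = 0 := by rw [← hk]; exact ZMod.natCast_self m
      push_cast at h3
      linear_combination (-(k : ZMod m)) * h1 + (idx a - idx b) * h3
    simp only [hθf, h2] at hab
    have h3 : (a * (x (idx b))⁻¹) * (a * (x (idx b))⁻¹) =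
        (b * (x (idx b))⁻¹) * (b * (x (idx b))⁻¹) := by
      have h4 := congrArg (fun g => g * (y (idx b - 1))⁻¹ * (x (idx b))⁻¹) hab
      simp only [mul_assoc, mul_inv_cancel_left] at h4
      simp only [mul_assoc]
      exact h4
    exact mul_right_cancel (sq_injective hodd h3)
  let θ₀ : Equiv.Perm G := Equiv.ofBijective θf (Finite.injective_iff_bijective.mp θ_inj)
  let φ₀ : Equiv.Perm G := Equiv.ofBijective _ (Finite.injective_iff_bijective.mp φ_inj)
  let ψ : Equiv.Perm G := (Equiv.addRight (1 : ZMod m)).viaEmbedding ⟨x, x_inj⟩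
  have ψ_x : ∀ i, ψ (x i) = x (i + 1) := by
    intro i
    exact Equiv.Perm.viaEmbedding_apply _ (⟨x, x_inj⟩ : ZMod m ↪ G) i
  have ψ_ne : ∀ g, g ∉ Set.range x → ψ g = g := by
    intro g hg
    exact Equiv.Perm.viaEmbedding_apply_of_notMem _ (⟨x, x_inj⟩ : ZMod m ↪ G) g hg
  have θ_x : ∀ i, θ₀ (x i) = y (i - 1) := by
    intro i
    change θf (x i) = _
    simp only [hθf, idx_x]
    group
  apply near_of_trade θ₀ φ₀ ψ (ψ.trans ψ) (x (-1))
  · intro g hg
    rw [Equiv.trans_apply]
    by_cases hgx : g ∈ Set.range x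
    · obtain ⟨i, rfl⟩ := hgx
      rw [ψ_x, ψ_x, θ_x]
      change _ = x (i + 1) * θ₀ (x (i + 1))
      rw [θ_x]
      have hi : i ≠ -1 := fun h => hg (by rw [h])
      have h1 : i + 1 + 1 - 1 = i + 1 := by ring
      have h2 : i + 1 - 1 = i := by ring
      rw [h1, h2]
      have h3 : (i + 1).val = i.val + 1 := val_succ hm i hi
      simp only [hx, hy, h3]
      exact X_mul_Y t n i.val
    · rw [ψ_ne g hgx, ψ_ne g hgx]
      rfl
  · rw [Equiv.trans_apply, ψ_x, ψ_x, θ_x]
    change _ ≠ x (-1 + 1) * θ₀ (x (-1 + 1))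
    rw [θ_x]
    have h1 : (-1 + 1 + 1 - 1 : ZMod m) = 0 := by ring
    have h2 : (-1 + 1 : ZMod m) = 0 := by ring
    have h3 : (0 - 1 : ZMod m) = -1 := by ring
    rw [h1, h2, h3]
    simp only [hx, hy, val_neg_one hm, ZMod.val_zero]
    rw [X_of_ne t n (by omega : m - 1 ≠ 1), X_of_ne t n (by omega : (0 : ℕ) ≠ 1),
      show m - 1 + 1 = (m - 3) + 3 by omega, Y_add_three, Y_three, show (0 + 1 : ℕ) = 1 from rfl]
    change t ^ (m - 1) * t ≠ _
    rw [pow_zero, one_mul]
    intro h
    apply hnt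
    have h4 : t ^ (m - 1) * t = t ^ (m - 3) * (t ^ 2 * t) := by
      rw [← pow_succ, ← pow_succ, ← pow_add]
      congr 1
      omega
    rw [h4] at h
    have h5 := mul_left_cancel h
    have h6 : (n * t) * (t ^ 2 * t) = t ^ 2 * (n * t * t) := by
      rw [h5]
      group
    have h7 : (n * t ^ 2) * (t * t) = (t ^ 2 * n) * (t * t) := by
      calc (n * t ^ 2) * (t * t) = (n * t) * (t ^ 2 * t) := by
            simp only [pow_two, mul_assoc]
        _ = t ^ 2 * (n * t * t) := h6
        _ = (t ^ 2 * n) * (t * t) := by simp only [pow_two, mul_assoc]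
    exact mul_right_cancel h7

end Construction

/-- Every abelian subgroup is centralized by every element normalizing it. -/
def Hyp (G : Type u) [Group G] : Prop :=
  ∀ A : Subgroup G, (∀ a ∈ A, ∀ b ∈ A, a * b = b * a) →
    ∀ t : G, (∀ a ∈ A, t * a * t⁻¹ ∈ A) → ∀ a ∈ A, t * a = a * t

theorem hyp_subgroup {G : Type u} [Group G] (h : Hyp G) (K : Subgroup G) : Hyp K := by
  intro A hA t ht a ha
  apply Subtype.ext
  refine h (A.map K.subtype) ?_ (t : G) ?_ (a : G) ⟨a, ha, rfl⟩
  · rintro _ ⟨x, hx, rfl⟩ _ ⟨y, hy, rfl⟩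
    rw [← map_mul, ← map_mul, hA x hx y hy]
  · rintro _ ⟨x, hx, rfl⟩
    exact ⟨t * x * t⁻¹, ht x hx, by simp⟩

theorem comm_of_pGroup {G : Type u} [Group G] [Finite G] {p : ℕ} [Fact p.Prime]
    (hp : IsPGroup p G) (h : Hyp G) (a b : G) : a * b = b * a := by
  by_contra hab
  have hne : Nontrivial (G ⧸ Subgroup.center G) := by
    rw [QuotientGroup.nontrivial_iff]
    intro htop
    apply hab
    have : b ∈ Subgroup.center G := by rw [htop]; trivial
    exact Subgroup.mem_center_iff.mp this a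
  have := (hp.to_quotient (Subgroup.center G)).center_nontrivial
  obtain ⟨⟨q, hq⟩, hq1⟩ := exists_ne (1 : Subgroup.center (G ⧸ Subgroup.center G))
  obtain ⟨x, rfl⟩ := QuotientGroup.mk_surjective q
  have hx : x ∉ Subgroup.center G := by
    intro hx
    apply hq1
    apply Subtype.ext
    exact (QuotientGroup.eq_one_iff x).mpr hx
  have hconj : ∀ t : G, ∃ c ∈ Subgroup.center G, t * x * t⁻¹ = x * c := by
    intro t
    refine ⟨x⁻¹ * (t * x * t⁻¹), ?_, by group⟩
    rw [← QuotientGroup.eq]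
    have := Subgroup.mem_center_iff.mp hq (t : G ⧸ Subgroup.center G)
    rw [← QuotientGroup.mk_mul, ← QuotientGroup.mk_mul] at this
    rw [QuotientGroup.mk_mul, QuotientGroup.mk_inv, this, QuotientGroup.mk_mul]
    group
  apply hx
  rw [Subgroup.mem_center_iff]
  intro t
  have hxA : x ∈ Subgroup.zpowers x ⊔ Subgroup.center G :=
    (le_sup_left : Subgroup.zpowers x ≤ _) (Subgroup.mem_zpowers x)
  refine h (Subgroup.zpowers x ⊔ Subgroup.center G) ?_ t ?_ x hxA
  · intro u hu v hv
    obtain ⟨u1, ⟨k, rfl⟩, z, hz, rfl⟩ := Subgroup.mem_sup_of_normal_right.mp hu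
    obtain ⟨v1, ⟨l, rfl⟩, w, hw, rfl⟩ := Subgroup.mem_sup_of_normal_right.mp hv
    have hz' := Subgroup.mem_center_iff.mp hz
    have hw' := Subgroup.mem_center_iff.mp hw
    change x ^ k * z * (x ^ l * w) = x ^ l * w * (x ^ k * z)
    calc x ^ k * z * (x ^ l * w) = x ^ k * (z * (x ^ l * w)) := by group
      _ = x ^ k * (x ^ l * w * z) := by rw [hz']
      _ = x ^ k * x ^ l * (w * z) := by group
      _ = x ^ l * x ^ k * (w * z) := by rw [← zpow_add, add_comm, zpow_add]
      _ = x ^ l * (x ^ k * w) * z := by group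
      _ = x ^ l * (w * x ^ k) * z := by rw [hw']
      _ = x ^ l * w * (x ^ k * z) := by group
  · intro u hu
    obtain ⟨u1, ⟨k, rfl⟩, z, hz, rfl⟩ := Subgroup.mem_sup_of_normal_right.mp hu
    obtain ⟨c, hc, hc'⟩ := hconj t
    have h1 : t * (x ^ k * z) * t⁻¹ = (t * x * t⁻¹) ^ k * z := by
      have hz' := Subgroup.mem_center_iff.mp hz
      rw [conj_zpow]
      calc t * (x ^ k * z) * t⁻¹ = t * x ^ k * (z * t⁻¹) := by group
        _ = t * x ^ k * (t⁻¹ * z) := by rw [hz']
        _ = t * x ^ k * t⁻¹ * z := by group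
    change t * (x ^ k * z) * t⁻¹ ∈ _
    rw [h1, hc']
    exact Subgroup.mul_mem _ (Subgroup.zpow_mem _ (Subgroup.mul_mem _ hxA
      ((le_sup_right : Subgroup.center G ≤ _) hc)) _) ((le_sup_right : Subgroup.center G ≤ _) hz)

theorem comm_of_hyp (n : ℕ) : ∀ (G : Type u) [Group G] [Finite G], Nat.card G = n → Hyp G →
    ∀ a b : G, a * b = b * a := by
  induction n using Nat.strong_induction_on with
  | _ n ih =>
    intro G _ _ hn h a b
    by_cases hn1 : Nat.card G = 1
    · have := (Nat.card_eq_one_iff_unique.mp hn1).1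
      exact Subsingleton.elim _ _
    · obtain ⟨p, hp, hpG⟩ := Nat.exists_prime_and_dvd hn1
      have : Fact p.Prime := ⟨hp⟩
      let P : Sylow p G := default
      have hPc : ∀ u v : P, u * v = v * u :=
        comm_of_pGroup P.isPGroup' (hyp_subgroup h P)
      have hP : Subgroup.normalizer (P : Set G) ≤ Subgroup.centralizer (P : Set G) := by
        intro t ht
        rw [Subgroup.mem_centralizer_iff]
        intro u hu
        symm
        refine h P ?_ t ?_ u hu
        · intro x hx y hy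
          exact congrArg Subtype.val (hPc ⟨x, hx⟩ ⟨y, hy⟩)
        · intro x hx
          exact (Subgroup.mem_normalizer_iff.mp ht x).mp hx
      have hcompl := MonoidHom.ker_transferSylow_isComplement' P hP
      set K := (MonoidHom.transferSylow P hP).ker with hK
      have hPcard : 1 < Nat.card P := by
        have h1 : p ∣ Nat.card P := P.dvd_card_of_dvd_card hpG
        exact lt_of_lt_of_le hp.one_lt (Nat.le_of_dvd Nat.card_pos h1)
      have hKcard : Nat.card K < n := by
        have h1 := hcompl.card_mul_card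
        rw [← hn, ← h1]
        have h2 : 0 < Nat.card K := Nat.card_pos
        nlinarith
      have hKc := ih _ hKcard K rfl (hyp_subgroup h K)
      have hKz : ∀ t : G, ∀ k ∈ K, t * k = k * t := by
        intro t k hk
        refine h K ?_ t ?_ k hk
        · intro x hx y hy
          exact congrArg Subtype.val (hKc ⟨x, hx⟩ ⟨y, hy⟩)
        · intro x hx
          exact (inferInstance : K.Normal).conj_mem x hx t
      obtain ⟨⟨k, u⟩, hku, -⟩ := hcompl.existsUnique a
      obtain ⟨⟨l, v⟩, hlv, -⟩ := hcompl.existsUnique b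
      simp only at hku hlv
      have huv : (u : G) * v = v * u := congrArg Subtype.val (hPc u v)
      rw [← hku, ← hlv]
      have hk := hKz
      calc (k : G) * u * (l * v) = k * (u * l) * v := by group
        _ = k * (l * u) * v := by rw [hKz u l l.2]
        _ = (k * l) * (u * v) := by group
        _ = (l * k) * (v * u) := by rw [huv, hKz k l l.2]
        _ = l * (k * v) * u := by group
        _ = l * (v * k) * u := by rw [hKz v k k.2]
        _ = l * v * (k * u) := by group

theorem odd_card_of_dvd {a b : ℕ} (hb : Odd b) (h : a ∣ b) : Odd a := by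
  rw [← Nat.not_even_iff_odd] at hb ⊢
  intro ha
  exact hb (ha.trans_dvd h)

theorem near_of_normal {G : Type u} [Group G] [Finite G] (hodd : Odd (Nat.card G))
    (A : Subgroup G) [A.Normal] (hA : ∀ a ∈ A, ∀ b ∈ A, a * b = b * a) (t n : G) (hn : n ∈ A)
    (htn : t * n ≠ n * t) : Near G := by
  set τ : G ⧸ A := (t : G ⧸ A) with hτ
  set Z : Subgroup (G ⧸ A) := Subgroup.zpowers τ with hZ
  have hτZ : τ ∈ Z := Subgroup.mem_zpowers τ
  have hgen : ∀ x : Z, x ∈ Subgroup.zpowers (⟨τ, hτZ⟩ : Z) := by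
    rintro ⟨x, ⟨k, rfl⟩⟩
    exact ⟨k, Subtype.ext (by simp)⟩
  have htA : t ∉ A := fun ht => htn (hA t ht n hn)
  have hoddZ : Odd (Nat.card Z) :=
    odd_card_of_dvd hodd ((Subgroup.card_subgroup_dvd_card Z).trans (Subgroup.card_quotient_dvd_card A))
  have hZne : Nat.card Z ≠ 1 := by
    intro h1
    have := (Nat.card_eq_one_iff_unique.mp h1).1
    have h2 : (⟨τ, hτZ⟩ : Z) = 1 := Subsingleton.elim _ _
    have h3 : τ = 1 := congrArg Subtype.val h2
    exact htA ((QuotientGroup.eq_one_iff t).mp h3)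
  have hZ3 : 3 ≤ Nat.card Z := by
    obtain ⟨k, hk⟩ := hoddZ
    omega
  have : NeZero (Nat.card Z) := ⟨by omega⟩
  let e := zmodMulEquivOfGenerator (G := Z) (g := ⟨τ, hτZ⟩) hgen rfl
  let K : Subgroup G := Z.comap (QuotientGroup.mk' A)
  let f : K →* Z := (QuotientGroup.mk' A).subgroupComap Z
  let φ : K →* Multiplicative (ZMod (Nat.card Z)) := e.symm.toMonoidHom.comp f
  have htK : t ∈ K := hτZ
  have hnK : n ∈ K := by
    change ((n : G) : G ⧸ A) ∈ Z
    rw [(QuotientGroup.eq_one_iff n).mpr hn]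
    exact Z.one_mem
  have h1 : (φ ⟨t, htK⟩).toAdd = 1 := by
    have h2 : f ⟨t, htK⟩ = ⟨τ, hτZ⟩ := rfl
    have h3 : φ ⟨t, htK⟩ = Multiplicative.ofAdd 1 := by
      change e.symm (f ⟨t, htK⟩) = _
      rw [h2]
      exact zmodMulEquivOfGenerator_symm_apply_generator hgen rfl
    rw [h3]
    rfl
  have h2 : (φ ⟨n, hnK⟩).toAdd = 0 := by
    have h3 : f ⟨n, hnK⟩ = 1 := Subtype.ext ((QuotientGroup.eq_one_iff n).mpr hn)
    have h4 : φ ⟨n, hnK⟩ = 1 := by
      change e.symm (f ⟨n, hnK⟩) = _
      rw [h3, map_one]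
    rw [h4]
    rfl
  have hoddK : Odd (Nat.card K) := odd_card_of_dvd hodd (Subgroup.card_subgroup_dvd_card K)
  have hnt : (⟨n, hnK⟩ : K) * ⟨t, htK⟩ ^ 2 ≠ ⟨t, htK⟩ ^ 2 * ⟨n, hnK⟩ := by
    intro h
    have h3 : n * t ^ 2 = t ^ 2 * n := congrArg Subtype.val h
    apply htn
    obtain ⟨k, hk⟩ := hodd
    have h4 : t ^ (2 * k + 1) = 1 := by rw [← hk]; exact pow_card_eq_one'
    have h5 : t = (t ^ 2) ^ (k + 1) := by
      calc t = t ^ (2 * k + 1) * t := by rw [h4, one_mul]
        _ = (t ^ 2) ^ (k + 1) := by rw [← pow_mul, ← pow_succ]; congr 1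
    have h6 : Commute n (t ^ 2) := h3
    have h7 : Commute n ((t ^ 2) ^ (k + 1)) := h6.pow_right _
    rw [← h5] at h7
    exact h7.symm
  exact near_of_subgroup hodd K (near_of_hom φ h1 h2 hoddK hZ3 hoddZ hnt)

theorem near_of_nonabelian {G : Type u} [Group G] [Finite G] (hodd : Odd (Nat.card G))
    (hna : ¬ ∀ a b : G, a * b = b * a) : Near G := by
  have h : ¬ Hyp G := fun h => hna (comm_of_hyp _ G rfl h)
  unfold Hyp at h
  push Not at h
  obtain ⟨A, hA, t, ht, n, hn, htn⟩ := h
  set N := Subgroup.normalizer (A : Set G) with hN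
  have htN : t ∈ N := by
    rw [hN, Subgroup.mem_normalizer_iff]
    intro x
    refine ⟨fun hx => ht x hx, fun hx => ?_⟩
    -- conjugation by `t` is a permutation of the finite set `A`
    have hinj : Function.Injective fun a : A => (⟨t * a * t⁻¹, ht a a.2⟩ : A) := by
      intro a b hab
      have h1 : t * (a : G) * t⁻¹ = t * b * t⁻¹ := congrArg Subtype.val hab
      exact Subtype.ext (mul_left_cancel (mul_right_cancel h1))
    obtain ⟨a, ha⟩ := Finite.surjective_of_injective hinj ⟨t * x * t⁻¹, hx⟩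
    have h1 : t * (a : G) * t⁻¹ = t * x * t⁻¹ := congrArg Subtype.val ha
    rw [← mul_left_cancel (mul_right_cancel h1)]
    exact a.2
  have hnN : n ∈ N := Subgroup.le_normalizer hn
  have hoddN : Odd (Nat.card N) := odd_card_of_dvd hodd (Subgroup.card_subgroup_dvd_card N)
  refine near_of_subgroup hodd N
    (near_of_normal hoddN (A.subgroupOf N) ?_ ⟨t, htN⟩ ⟨n, hnN⟩ hn ?_)
  · intro a ha b hb
    exact Subtype.ext (hA a ha b hb)
  · intro h
    exact htn (congrArg Subtype.val h)

/-- Every nonabelian finite group of odd order `n` has a chain of rank `n - 1` in its Cayley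
table. -/
theorem result (G : Type u) [Group G] [Finite G] (hodd : Odd (Nat.card G))
    (hna : ¬ ∀ a b : G, a * b = b * a) : Admissible G (Nat.card G - 1) := by
  obtain ⟨θ, s, hs⟩ := near_of_nonabelian hodd hna
  refine ⟨θ, ?_⟩
  rw [chainRank, hs, Set.ncard_compl, Set.ncard_singleton]

end Pool.Agent.Results.MP_053bca_co.OddNonabelian
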